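import Pool.Agent.Lib.MP_b5021c_nt.E1.H80.Iface

/-!
# Board b5, E1R: row LEG (Lemma G of finding 3478)
-/

namespace Pool.Agent.B5.H17

open Pool.Agent.B5.Nr
open Pool.Agent.B5
open scoped LaurentPolynomial

/-- `B_m`. -/
noncomputable def bm (a : ℝ) (g : ℤ →₀ ℤ) (m : ℤ) : ℝ := g.sum fun k c => (c : ℝ) * a ^ (k + m).natAbs

theorem bm_add (a : ℝ) (g h : ℤ →₀ ℤ) (m : ℤ) : bm a (g + h) m = bm a g m + bm a h m := by
  unfold bm
  rw [Finsupp.sum_add_index']
  · intro k; simp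
  · intro k c d; push_cast; ring

theorem am_add (a : ℝ) (p q : RO ℤ) : Am a (p + q) = Am a p + Am a q := by
  unfold Am
  rw [AddMonoidAlgebra.coeff_add, Finsupp.sum_add_index']
  · intro k; simp
  · intro k c d; push_cast; ring

theorem am_ld (a : ℝ) (b : RO ℤ) (ε : ℤˣ) (m : ℤ) :
    Am a (b * (ld ε m : RO ℤ)) = ((ε : ℤ) : ℝ) * bm a b.coeff m := by
  induction b using AddMonoidAlgebra.induction_linear with
  | zero => simp [Am, bm]
  | add p q hp hq =>
      rw [add_mul, am_add, hp, hq, AddMonoidAlgebra.coeff_add, bm_add]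
      ring
  | single k c =>
      have h1 : (ld ε m : RO ℤ) = AddMonoidAlgebra.single m (ε : ℤ) := by
        change LaurentPolynomial.C (ε : ℤ) * LaurentPolynomial.T m = _
        rw [← LaurentPolynomial.single_eq_C_mul_T]
      rw [h1, AddMonoidAlgebra.single_mul_single]
      unfold Am bm
      rw [AddMonoidAlgebra.coeff_single, AddMonoidAlgebra.coeff_single,
        Finsupp.sum_single_index (by simp), Finsupp.sum_single_index (by simp)]
      push_cast
      ring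

theorem cf_ld (b : RO ℤ) (ε : ℤˣ) (m : ℤ) :
    (b * (ld ε m : RO ℤ)).coeff 0 = (ε : ℤ) * b.coeff (-m) := by
  induction b using AddMonoidAlgebra.induction_linear with
  | zero => simp
  | add p q hp hq =>
      rw [add_mul, AddMonoidAlgebra.coeff_add, AddMonoidAlgebra.coeff_add, Finsupp.add_apply,
        Finsupp.add_apply, hp, hq]
      ring
  | single k c =>
      have h1 : (ld ε m : RO ℤ) = AddMonoidAlgebra.single m (ε : ℤ) := by
        change LaurentPolynomial.C (ε : ℤ) * LaurentPolynomial.T m = _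
        rw [← LaurentPolynomial.single_eq_C_mul_T]
      rw [h1, AddMonoidAlgebra.single_mul_single, AddMonoidAlgebra.coeff_single,
        AddMonoidAlgebra.coeff_single, Finsupp.single_apply, Finsupp.single_apply]
      by_cases h : k = -m
      · subst h
        simp [mul_comm]
      · rw [if_neg (by intro h2; apply h; omega), if_neg h, mul_zero]

/-- The bottom end. -/
theorem bot (a : ℝ) (g : ℤ →₀ ℤ) (k0 : ℤ) (h : ∀ k ∈ g.support, k0 ≤ k) :
    bm a g (-k0) - a * bm a g (-k0 - 1) = (1 - a ^ 2) * (g k0 : ℝ) := by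
  unfold bm Finsupp.sum
  rw [Finset.mul_sum, ← Finset.sum_sub_distrib]
  have h1 : ∀ k ∈ g.support, ((g k : ℝ) * a ^ (k + -k0).natAbs -
      a * ((g k : ℝ) * a ^ (k + (-k0 - 1)).natAbs)) =
      if k = k0 then (1 - a ^ 2) * (g k0 : ℝ) else 0 := by
    intro k hk
    have h2 := h k hk
    by_cases h3 : k = k0
    · subst h3
      have e1 : (k + -k).natAbs = 0 := by omega
      have e2 : (k + (-k - 1)).natAbs = 1 := by omega
      rw [if_pos rfl, e1, e2]
      ring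
    · rw [if_neg h3]
      obtain ⟨n, hn⟩ : ∃ n : ℕ, k = k0 + 1 + n := ⟨(k - k0 - 1).toNat, by omega⟩
      have e1 : (k + -k0).natAbs = n + 1 := by omega
      have e2 : (k + (-k0 - 1)).natAbs = n := by omega
      rw [e1, e2]
      ring
  rw [Finset.sum_congr rfl h1, Finset.sum_ite_eq']
  by_cases h4 : k0 ∈ g.support
  · rw [if_pos h4]
  · rw [if_neg h4, Finsupp.notMem_support_iff.mp h4]
    simp

/-- The top end. -/
theorem top (a : ℝ) (g : ℤ →₀ ℤ) (k1 : ℤ) (h : ∀ k ∈ g.support, k ≤ k1) :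
    bm a g (-k1) - a * bm a g (-k1 + 1) = (1 - a ^ 2) * (g k1 : ℝ) := by
  unfold bm Finsupp.sum
  rw [Finset.mul_sum, ← Finset.sum_sub_distrib]
  have h1 : ∀ k ∈ g.support, ((g k : ℝ) * a ^ (k + -k1).natAbs -
      a * ((g k : ℝ) * a ^ (k + (-k1 + 1)).natAbs)) =
      if k = k1 then (1 - a ^ 2) * (g k1 : ℝ) else 0 := by
    intro k hk
    have h2 := h k hk
    by_cases h3 : k = k1
    · subst h3
      have e1 : (k + -k).natAbs = 0 := by omega
      have e2 : (k + (-k + 1)).natAbs = 1 := by omega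
      rw [if_pos rfl, e1, e2]
      ring
    · rw [if_neg h3]
      obtain ⟨n, hn⟩ : ∃ n : ℕ, k + 1 + n = k1 := ⟨(k1 - k - 1).toNat, by omega⟩
      have e1 : (k + -k1).natAbs = n + 1 := by omega
      have e2 : (k + (-k1 + 1)).natAbs = n := by omega
      rw [e1, e2]
      ring
  rw [Finset.sum_congr rfl h1, Finset.sum_ite_eq']
  by_cases h4 : k1 ∈ g.support
  · rw [if_pos h4]
  · rw [if_neg h4, Finsupp.notMem_support_iff.mp h4]
    simp

theorem abs_ends (a x y : ℝ) (c : ℤ) (ha : |a| ≤ 1 / 2) (hc : c ≠ 0)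
    (h : x - a * y = (1 - a ^ 2) * (c : ℝ)) : 1 - |a| ≤ |x| ∨ 1 - |a| ≤ |y| := by
  by_contra hcon
  rw [not_or, not_le, not_le] at hcon
  have hc1 : (1 : ℝ) ≤ |(c : ℝ)| := by
    have := Int.one_le_abs hc
    exact_mod_cast this
  have h1 : |(1 - a ^ 2) * (c : ℝ)| ≤ |x| + |a| * |y| := by
    rw [← h]
    calc |x - a * y| ≤ |x| + |a * y| := abs_sub _ _
      _ = |x| + |a| * |y| := by rw [abs_mul]
  have ha2 : a ^ 2 = |a| ^ 2 := (sq_abs a).symm
  have h2 : (0 : ℝ) ≤ 1 - a ^ 2 := by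
    rw [ha2]; nlinarith [abs_nonneg a]
  rw [abs_mul, abs_of_nonneg h2] at h1
  have h3 : (1 - a ^ 2) * 1 ≤ (1 - a ^ 2) * |(c : ℝ)| := mul_le_mul_of_nonneg_left hc1 h2
  rw [ha2] at h1 h3
  nlinarith [abs_nonneg a, abs_nonneg x, abs_nonneg y]

/-- Numerical claim for three coefficients, `0 ≤ a`, `2 ≤ q`. -/
theorem num3a (a : ℝ) (p q r : ℤ) (ha0 : 0 ≤ a) (ha : a ≤ 1 / 2) (hp : p ≠ 0) (hr : r ≠ 0)
    (hq : 2 ≤ q)
    (hY : |(p : ℝ) + q * a + r * a ^ 2| < 1 - a) (hZ : |(r : ℝ) + q * a + p * a ^ 2| < 1 - a) :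
    3 / 2 - a ≤ (q : ℝ) + (p + r) * a := by
  rw [abs_lt] at hY hZ
  obtain ⟨hY1, hY2⟩ := hY
  obtain ⟨hZ1, hZ2⟩ := hZ
  have hq' : (2 : ℝ) ≤ q := by exact_mod_cast hq
  -- the difference
  have hd1 : p - r ≤ 1 := by
    by_contra h
    have h2 : (2 : ℝ) ≤ (p : ℝ) - r := by
      have : 2 ≤ p - r := by omega
      exact_mod_cast this
    have h3 := mul_le_mul_of_nonneg_right h2 (by nlinarith : (0 : ℝ) ≤ 1 - a ^ 2)
    nlinarith
  have hd2 : r - p ≤ 1 := by
    by_contra h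
    have h2 : (2 : ℝ) ≤ (r : ℝ) - p := by
      have : 2 ≤ r - p := by omega
      exact_mod_cast this
    have h3 := mul_le_mul_of_nonneg_right h2 (by nlinarith : (0 : ℝ) ≤ 1 - a ^ 2)
    nlinarith
  have hp1 : p ≤ -1 := by
    by_contra h
    have h1 : 1 ≤ p := by omega
    have h2 : 1 ≤ r := by omega
    have h1' : (1 : ℝ) ≤ p := by exact_mod_cast h1
    have h2' : (1 : ℝ) ≤ r := by exact_mod_cast h2
    nlinarith [mul_nonneg ha0 (by linarith : (0 : ℝ) ≤ q), mul_nonneg (sq_nonneg a) (by linarith : (0 : ℝ) ≤ r)]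
  have hr1 : r ≤ -1 := by omega
  have hp' : (p : ℝ) ≤ -1 := by exact_mod_cast hp1
  have hr' : (r : ℝ) ≤ -1 := by exact_mod_cast hr1
  rcases (show q = 2 ∨ 3 ≤ q by omega) with hq2 | hq3
  · subst hq2
    have hp2 : p = -1 := by
      by_contra h
      have h1 : p ≤ -2 := by omega
      have h1' : (p : ℝ) ≤ -2 := by exact_mod_cast h1
      push_cast at hY1
      nlinarith [mul_nonneg (sq_nonneg a) (by linarith : (0 : ℝ) ≤ -1 - r)]
    have hr2 : r = -1 := by
      by_contra h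
      have h1 : r ≤ -2 := by omega
      have h1' : (r : ℝ) ≤ -2 := by exact_mod_cast h1
      push_cast at hZ1
      nlinarith [mul_nonneg (sq_nonneg a) (by linarith : (0 : ℝ) ≤ -1 - p)]
    subst hp2 hr2
    push_cast
    linarith
  · have hq3' : (3 : ℝ) ≤ q := by exact_mod_cast hq3
    have h1 : -2 * (1 - a) ≤ ((p : ℝ) + r) * (1 + a ^ 2) + 2 * q * a := by nlinarith
    have h2 : (1 - a) * (3 + a) ≤ (1 + a ^ 2) * ((q : ℝ) + (p + r) * a) := by
      have h3 : a * (-2 * (1 - a)) ≤ a * (((p : ℝ) + r) * (1 + a ^ 2) + 2 * q * a) :=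
        mul_le_mul_of_nonneg_left h1 ha0
      have h4 : (1 - a ^ 2) * 3 ≤ (1 - a ^ 2) * q :=
        mul_le_mul_of_nonneg_left hq3' (by nlinarith)
      nlinarith
    have h5 : (1 + a ^ 2) * (3 / 2 - a) ≤ (1 - a) * (3 + a) := by nlinarith [mul_nonneg ha0 (by linarith : (0:ℝ) ≤ 1 / 2 - a), mul_nonneg (mul_nonneg ha0 ha0) ha0]
    have h6 : (0 : ℝ) < 1 + a ^ 2 := by positivity
    have h7 := h5.trans h2
    exact le_of_mul_le_mul_left h7 h6

theorem num3b (a : ℝ) (p q r : ℤ) (ha0 : 0 ≤ a) (ha : a ≤ 1 / 2) (hp : p ≠ 0) (hr : r ≠ 0)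
    (hY : |(p : ℝ) + q * a + r * a ^ 2| < 1 - a) (hZ : |(r : ℝ) + q * a + p * a ^ 2| < 1 - a) :
    1 ≤ |(q : ℝ) + (p + r) * a| := by
  by_contra hX
  rw [not_le, abs_lt] at hX
  rw [abs_lt] at hY hZ
  obtain ⟨hY1, hY2⟩ := hY
  obtain ⟨hZ1, hZ2⟩ := hZ
  obtain ⟨hX1, hX2⟩ := hX
  have hx1 := mul_le_mul_of_nonneg_left hX1.le ha0
  have hx2 := mul_le_mul_of_nonneg_left hX2.le ha0
  have hc : (3 : ℝ) / 4 ≤ 1 - a ^ 2 := by nlinarith
  have kp1 : (p : ℝ) * (1 - a ^ 2) < 1 := by nlinarith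
  have kp2 : -1 < (p : ℝ) * (1 - a ^ 2) := by nlinarith
  have kr1 : (r : ℝ) * (1 - a ^ 2) < 1 := by nlinarith
  have kr2 : -1 < (r : ℝ) * (1 - a ^ 2) := by nlinarith
  have hp1 : p ≤ 1 := by
    by_contra h
    have h1 : (2 : ℝ) ≤ p := by
      have : 2 ≤ p := by omega
      exact_mod_cast this
    nlinarith
  have hp2 : -1 ≤ p := by
    by_contra h
    have h1 : (p : ℝ) ≤ -2 := by
      have : p ≤ -2 := by omega
      exact_mod_cast this
    nlinarith
  have hr1 : r ≤ 1 := by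
    by_contra h
    have h1 : (2 : ℝ) ≤ r := by
      have : 2 ≤ r := by omega
      exact_mod_cast this
    nlinarith
  have hr2 : -1 ≤ r := by
    by_contra h
    have h1 : (r : ℝ) ≤ -2 := by
      have : r ≤ -2 := by omega
      exact_mod_cast this
    nlinarith
  have hq1 : q ≤ 1 := by
    by_contra h
    have h1 : (2 : ℝ) ≤ q := by
      have : 2 ≤ q := by omega
      exact_mod_cast this
    have h2 : (-1 : ℝ) ≤ p := by exact_mod_cast hp2
    have h3 : (-1 : ℝ) ≤ r := by exact_mod_cast hr2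
    nlinarith
  have hq2 : -1 ≤ q := by
    by_contra h
    have h1 : (q : ℝ) ≤ -2 := by
      have : q ≤ -2 := by omega
      exact_mod_cast this
    have h2 : (p : ℝ) ≤ 1 := by exact_mod_cast hp1
    have h3 : (r : ℝ) ≤ 1 := by exact_mod_cast hr1
    nlinarith
  have hpc : p = 1 ∨ p = -1 := by omega
  have hrc : r = 1 ∨ r = -1 := by omega
  have hqc : q = 1 ∨ q = 0 ∨ q = -1 := by omega
  rcases hpc with rfl | rfl <;> rcases hrc with rfl | rfl <;> rcases hqc with rfl | rfl | rfl <;>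
    push_cast at hX1 hX2 hY1 hY2 hZ1 hZ2 <;> nlinarith

theorem num3c (a : ℝ) (p q r : ℤ) (ha0 : 0 ≤ a) (ha : a ≤ 1 / 2) (hp : p ≠ 0) (hr : r ≠ 0)
    (hY : |(p : ℝ) + q * a + r * a ^ 2| < 1 - a) (hZ : |(r : ℝ) + q * a + p * a ^ 2| < 1 - a) :
    1 ≤ |(q : ℝ) + (p + r) * a| ∧ (2 ≤ |q| → 3 / 2 - a ≤ |(q : ℝ) + (p + r) * a|) := by
  refine ⟨num3b a p q r ha0 ha hp hr hY hZ, ?_⟩
  intro hq
  rcases le_abs.mp hq with h | h
  · exact (num3a a p q r ha0 ha hp hr h hY hZ).trans (le_abs_self _)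
  · have h1 := num3a a (-p) (-q) (-r) ha0 ha (by omega) (by omega) h
      (by
        rw [← abs_neg] at hY
        convert hY using 2
        push_cast; ring)
      (by
        rw [← abs_neg] at hZ
        convert hZ using 2
        push_cast; ring)
    rw [← abs_neg]
    refine (h1.trans (le_of_eq ?_)).trans (le_abs_self _)
    push_cast; ring

/-- Three coefficients, `a` of any sign. -/
theorem num3 (a : ℝ) (p q r : ℤ) (ha : |a| ≤ 1 / 2) (hp : p ≠ 0) (hr : r ≠ 0)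
    (hY : |(p : ℝ) + q * a + r * a ^ 2| < 1 - |a|) (hZ : |(r : ℝ) + q * a + p * a ^ 2| < 1 - |a|) :
    1 ≤ |(q : ℝ) + (p + r) * a| ∧ (2 ≤ |q| → 3 / 2 - |a| ≤ |(q : ℝ) + (p + r) * a|) := by
  rcases le_total 0 a with h0 | h0
  · rw [abs_of_nonneg h0] at ha hY hZ ⊢
    exact num3c a p q r h0 ha hp hr hY hZ
  · rw [abs_of_nonpos h0] at ha hY hZ ⊢
    have := num3c (-a) (-p) q (-r) (by linarith) ha (by omega) (by omega)
      (by
        rw [← abs_neg] at hY
        convert hY using 2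
        push_cast; ring)
      (by
        rw [← abs_neg] at hZ
        convert hZ using 2
        push_cast; ring)
    have e : (q : ℝ) + (((-p : ℤ) : ℝ) + ((-r : ℤ) : ℝ)) * (-a) = (q : ℝ) + (p + r) * a := by
      push_cast; ring
    rw [e] at this
    exact this

/-- Two coefficients, `0 ≤ a`. -/
theorem num2a (a : ℝ) (p q : ℤ) (ha0 : 0 ≤ a) (ha : a ≤ 1 / 2) (hp : 1 ≤ p) (hq : q ≠ 0) :
    (1 - a ≤ |(p : ℝ) + q * a| ∧ 1 - a ≤ |(p : ℝ) * a + q|) ∨
    (1 ≤ |(p : ℝ) + q * a| ∧ (2 ≤ |p| → 3 / 2 - a ≤ |(p : ℝ) + q * a|)) ∨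
    (1 ≤ |(p : ℝ) * a + q| ∧ (2 ≤ |q| → 3 / 2 - a ≤ |(p : ℝ) * a + q|)) := by
  have hp' : (1 : ℝ) ≤ p := by exact_mod_cast hp
  rcases lt_or_gt_of_ne hq with h | h
  · -- opposite signs
    have hq' : (q : ℝ) ≤ -1 := by
      have : q ≤ -1 := by omega
      exact_mod_cast this
    rcases lt_trichotomy p (-q) with h1 | h1 | h1
    · right; right
      have h2 : (p : ℝ) + 1 ≤ -q := by exact_mod_cast h1
      have h3 : 2 - a ≤ |(p : ℝ) * a + q| := by
        rw [← abs_neg]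
        refine le_trans ?_ (le_abs_self _)
        nlinarith
      exact ⟨by linarith, fun _ => by linarith⟩
    · left
      have h2 : (q : ℝ) = -p := by
        have : q = -p := by omega
        rw [this]; push_cast; ring
      rw [h2]
      constructor
      · refine le_trans ?_ (le_abs_self _)
        nlinarith
      · rw [← abs_neg]
        refine le_trans ?_ (le_abs_self _)
        nlinarith
    · right; left
      have h2 : -(q : ℝ) + 1 ≤ p := by exact_mod_cast h1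
      have h3 : 2 - a ≤ |(p : ℝ) + q * a| := by
        refine le_trans ?_ (le_abs_self _)
        nlinarith
      exact ⟨by linarith, fun _ => by linarith⟩
  · right; left
    have hq' : (1 : ℝ) ≤ q := by exact_mod_cast h
    have h3 : (p : ℝ) ≤ |(p : ℝ) + q * a| := by
      refine le_trans ?_ (le_abs_self _)
      nlinarith
    refine ⟨by linarith, fun h4 => ?_⟩
    have h5 : (2 : ℝ) ≤ p := by
      rw [abs_of_pos (by omega)] at h4
      exact_mod_cast h4
    linarith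

theorem num2b (a : ℝ) (p q : ℤ) (ha0 : 0 ≤ a) (ha : a ≤ 1 / 2) (hp : p ≠ 0) (hq : q ≠ 0) :
    (1 - a ≤ |(p : ℝ) + q * a| ∧ 1 - a ≤ |(p : ℝ) * a + q|) ∨
    (1 ≤ |(p : ℝ) + q * a| ∧ (2 ≤ |p| → 3 / 2 - a ≤ |(p : ℝ) + q * a|)) ∨
    (1 ≤ |(p : ℝ) * a + q| ∧ (2 ≤ |q| → 3 / 2 - a ≤ |(p : ℝ) * a + q|)) := by
  rcases lt_or_gt_of_ne hp with h | h
  · have := num2a a (-p) (-q) ha0 ha (by omega) (by omega)
    have e1 : |((-p : ℤ) : ℝ) + ((-q : ℤ) : ℝ) * a| = |(p : ℝ) + q * a| := by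
      rw [← abs_neg]; congr 1; push_cast; ring
    have e2 : |((-p : ℤ) : ℝ) * a + ((-q : ℤ) : ℝ)| = |(p : ℝ) * a + q| := by
      rw [← abs_neg]; congr 1; push_cast; ring
    rw [e1, e2, abs_neg, abs_neg] at this
    exact this
  · exact num2a a p q ha0 ha (by omega) hq

/-- Two coefficients, `a` of any sign. -/
theorem num2 (a : ℝ) (p q : ℤ) (ha : |a| ≤ 1 / 2) (hp : p ≠ 0) (hq : q ≠ 0) :
    (1 - |a| ≤ |(p : ℝ) + q * a| ∧ 1 - |a| ≤ |(p : ℝ) * a + q|) ∨
    (1 ≤ |(p : ℝ) + q * a| ∧ (2 ≤ |p| → 3 / 2 - |a| ≤ |(p : ℝ) + q * a|)) ∨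
    (1 ≤ |(p : ℝ) * a + q| ∧ (2 ≤ |q| → 3 / 2 - |a| ≤ |(p : ℝ) * a + q|)) := by
  rcases le_total 0 a with h0 | h0
  · rw [abs_of_nonneg h0] at ha ⊢
    exact num2b a p q h0 ha hp hq
  · rw [abs_of_nonpos h0] at ha ⊢
    have := num2b (-a) p (-q) (by linarith) ha hp (by omega)
    have e1 : (p : ℝ) + ((-q : ℤ) : ℝ) * (-a) = (p : ℝ) + q * a := by
      push_cast; ring
    have e2 : |(p : ℝ) * (-a) + ((-q : ℤ) : ℝ)| = |(p : ℝ) * a + q| := by
      rw [← abs_neg]; congr 1; push_cast; ring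
    rw [e1, e2, abs_neg] at this
    exact this

/-- Lemma G for finitely supported functions. -/
theorem lemG (a : ℝ) (g : ℤ →₀ ℤ) (ha : |a| ≤ 1 / 2) (hg : g ≠ 0) :
    (∃ m₁ m₂ : ℤ, m₁ ≠ m₂ ∧ 1 - |a| ≤ |bm a g m₁| ∧ 1 - |a| ≤ |bm a g m₂|) ∨
    ∃ m : ℤ, 1 ≤ |bm a g m| ∧ (2 ≤ |g (-m)| → 3 / 2 - |a| ≤ |bm a g m|) := by
  have hne : g.support.Nonempty := Finsupp.support_nonempty_iff.mpr hg
  obtain ⟨k0, hk0⟩ : ∃ k0, k0 = g.support.min' hne := ⟨_, rfl⟩
  obtain ⟨k1, hk1⟩ : ∃ k1, k1 = g.support.max' hne := ⟨_, rfl⟩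
  have m0 : k0 ∈ g.support := hk0 ▸ Finset.min'_mem _ _
  have m1 : k1 ∈ g.support := hk1 ▸ Finset.max'_mem _ _
  have b0 : ∀ k ∈ g.support, k0 ≤ k := fun k hk => hk0 ▸ Finset.min'_le _ _ hk
  have b1 : ∀ k ∈ g.support, k ≤ k1 := fun k hk => hk1 ▸ Finset.le_max' _ _ hk
  have n0 : g k0 ≠ 0 := Finsupp.mem_support_iff.mp m0
  have n1 : g k1 ≠ 0 := Finsupp.mem_support_iff.mp m1
  have h01 : k0 ≤ k1 := b0 k1 m1
  have e0 := abs_ends a _ _ _ ha n0 (bot a g k0 b0)
  have e1 := abs_ends a _ _ _ ha n1 (top a g k1 b1)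
  -- far ends
  by_cases hfar : k0 + 3 ≤ k1
  · left
    rcases e0 with e0 | e0 <;> rcases e1 with e1 | e1
    · exact ⟨_, _, by omega, e0, e1⟩
    · exact ⟨_, _, by omega, e0, e1⟩
    · exact ⟨_, _, by omega, e0, e1⟩
    · exact ⟨_, _, by omega, e0, e1⟩
  rcases (show k1 = k0 ∨ k1 = k0 + 1 ∨ k1 = k0 + 2 by omega) with hk | hk | hk
  · -- one coefficient
    right
    refine ⟨-k0, ?_⟩
    have hs : g.support ⊆ {k0} := by
      intro k hkk
      have := b0 k hkk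
      have := b1 k hkk
      rw [Finset.mem_singleton]; omega
    have hv : bm a g (-k0) = (g k0 : ℝ) := by
      unfold bm
      rw [Finsupp.sum_of_support_subset g hs _ (by intro i _; simp), Finset.sum_singleton]
      have : (k0 + -k0).natAbs = 0 := by omega
      rw [this]; simp
    rw [hv, neg_neg]
    have h1 : (1 : ℝ) ≤ |(g k0 : ℝ)| := by
      have := Int.one_le_abs n0
      exact_mod_cast this
    refine ⟨h1, fun h2 => ?_⟩
    have h3 : (2 : ℝ) ≤ |(g k0 : ℝ)| := by exact_mod_cast h2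
    linarith [abs_nonneg a]
  · -- two coefficients
    have hs : g.support ⊆ {k0, k0 + 1} := by
      intro k hkk
      have := b0 k hkk
      have := b1 k hkk
      rw [Finset.mem_insert, Finset.mem_singleton]; omega
    have hne' : k0 ∉ ({k0 + 1} : Finset ℤ) := by rw [Finset.mem_singleton]; omega
    have hv0 : bm a g (-k0) = (g k0 : ℝ) + (g (k0 + 1) : ℝ) * a := by
      unfold bm
      rw [Finsupp.sum_of_support_subset g hs _ (by intro i _; simp), Finset.sum_insert hne',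
        Finset.sum_singleton]
      have h1 : (k0 + -k0).natAbs = 0 := by omega
      have h2 : (k0 + 1 + -k0).natAbs = 1 := by omega
      rw [h1, h2]; simp
    have hv1 : bm a g (-(k0 + 1)) = (g k0 : ℝ) * a + (g (k0 + 1) : ℝ) := by
      unfold bm
      rw [Finsupp.sum_of_support_subset g hs _ (by intro i _; simp), Finset.sum_insert hne',
        Finset.sum_singleton]
      have h1 : (k0 + -(k0 + 1)).natAbs = 1 := by omega
      have h2 : (k0 + 1 + -(k0 + 1)).natAbs = 0 := by omega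
      rw [h1, h2]; simp
    rw [hk] at n1
    rcases num2 a _ _ ha n0 n1 with h | h | h
    · left
      refine ⟨-k0, -(k0 + 1), by omega, ?_, ?_⟩
      · rw [hv0]; exact h.1
      · rw [hv1]; exact h.2
    · right
      refine ⟨-k0, ?_⟩
      rw [hv0, neg_neg]
      exact h
    · right
      refine ⟨-(k0 + 1), ?_⟩
      rw [hv1, neg_neg]
      exact h
  · -- three coefficients
    have hs : g.support ⊆ {k0, k0 + 1, k0 + 2} := by
      intro k hkk
      have := b0 k hkk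
      have := b1 k hkk
      rw [Finset.mem_insert, Finset.mem_insert, Finset.mem_singleton]; omega
    have hne1 : k0 ∉ ({k0 + 1, k0 + 2} : Finset ℤ) := by
      rw [Finset.mem_insert, Finset.mem_singleton]; omega
    have hne2 : k0 + 1 ∉ ({k0 + 2} : Finset ℤ) := by rw [Finset.mem_singleton]; omega
    have hv : ∀ m : ℤ, bm a g m = (g k0 : ℝ) * a ^ (k0 + m).natAbs +
        ((g (k0 + 1) : ℝ) * a ^ (k0 + 1 + m).natAbs + (g (k0 + 2) : ℝ) * a ^ (k0 + 2 + m).natAbs) := by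
      intro m
      unfold bm
      rw [Finsupp.sum_of_support_subset g hs _ (by intro i _; simp), Finset.sum_insert hne1,
        Finset.sum_insert hne2, Finset.sum_singleton]
    have hX : bm a g (-(k0 + 1)) = (g (k0 + 1) : ℝ) + ((g k0 : ℝ) + (g (k0 + 2) : ℝ)) * a := by
      rw [hv]
      have h1 : (k0 + -(k0 + 1)).natAbs = 1 := by omega
      have h2 : (k0 + 1 + -(k0 + 1)).natAbs = 0 := by omega
      have h3 : (k0 + 2 + -(k0 + 1)).natAbs = 1 := by omega
      rw [h1, h2, h3]; ring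
    have hY : bm a g (-k0) = (g k0 : ℝ) + (g (k0 + 1) : ℝ) * a + (g (k0 + 2) : ℝ) * a ^ 2 := by
      rw [hv]
      have h1 : (k0 + -k0).natAbs = 0 := by omega
      have h2 : (k0 + 1 + -k0).natAbs = 1 := by omega
      have h3 : (k0 + 2 + -k0).natAbs = 2 := by omega
      rw [h1, h2, h3]; ring
    have hZ : bm a g (-(k0 + 2)) = (g (k0 + 2) : ℝ) + (g (k0 + 1) : ℝ) * a + (g k0 : ℝ) * a ^ 2 := by
      rw [hv]
      have h1 : (k0 + -(k0 + 2)).natAbs = 2 := by omega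
      have h2 : (k0 + 1 + -(k0 + 2)).natAbs = 1 := by omega
      have h3 : (k0 + 2 + -(k0 + 2)).natAbs = 0 := by omega
      rw [h1, h2, h3]; ring
    rw [hk] at n1
    have ei : -k0 - 1 = -(k0 + 1) := by ring
    have ej : -k1 = -(k0 + 2) := by rw [hk]
    have ek : -k1 + 1 = -(k0 + 1) := by rw [hk]; ring
    rw [ei] at e0
    rw [ek, ej] at e1
    by_cases hYb : 1 - |a| ≤ |bm a g (-k0)|
    · rcases e1 with e1 | e1
      · left; exact ⟨_, _, by omega, hYb, e1⟩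
      · left; exact ⟨_, _, by omega, hYb, e1⟩
    by_cases hZb : 1 - |a| ≤ |bm a g (-(k0 + 2))|
    · rcases e0 with e0 | e0
      · exact absurd e0 hYb
      · left; exact ⟨_, _, by omega, hZb, e0⟩
    right
    refine ⟨-(k0 + 1), ?_⟩
    rw [not_le, hY] at hYb
    rw [not_le, hZ] at hZb
    have := num3 a (g k0) (g (k0 + 1)) (g (k0 + 2)) ha n0 n1 hYb hZb
    rw [hX, neg_neg]
    exact this

/-- The sign. -/
theorem exi_sg (x : ℝ) (hx : x ≠ 0) : ∃ ε : ℤˣ, ((ε : ℤ) : ℝ) * x = -|x| := by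
  rcases lt_or_gt_of_ne hx with h | h
  · exact ⟨1, by rw [abs_of_neg h]; simp⟩
  · exact ⟨-1, by rw [abs_of_pos h]; simp⟩

theorem ld_ne (ε₁ ε₂ : ℤˣ) (m₁ m₂ : ℤ) (h : m₁ ≠ m₂) : ld ε₁ m₁ ≠ ld ε₂ m₂ := by
  intro he
  have h1 : ((ld ε₁ m₁ : (RO ℤ)ˣ) : RO ℤ).coeff m₁ = ((ld ε₂ m₂ : (RO ℤ)ˣ) : RO ℤ).coeff m₁ := by
    rw [he]
  have h2 : ∀ (ε : ℤˣ) (m : ℤ), (ld ε m : RO ℤ) = AddMonoidAlgebra.single m (ε : ℤ) := by
    intro ε m
    change LaurentPolynomial.C (ε : ℤ) * LaurentPolynomial.T m = _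
    rw [← LaurentPolynomial.single_eq_C_mul_T]
  rw [h2, h2, AddMonoidAlgebra.coeff_single, AddMonoidAlgebra.coeff_single,
    Finsupp.single_eq_same, Finsupp.single_eq_of_ne h] at h1
  exact ε₁.ne_zero h1

/-- Row E1R_LEG. -/
theorem leg : LegS := by
  intro a b ha hb
  have hg : b.coeff ≠ 0 := by
    intro h
    apply hb
    exact AddMonoidAlgebra.coeff_inj.mp (by rw [h]; simp)
  have hpos : (0 : ℝ) < 1 - |a| := by linarith
  rcases lemG a b.coeff ha hg with ⟨m₁, m₂, hm, h1, h2⟩ | ⟨m, h1, h2⟩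
  · left
    have n1 : bm a b.coeff m₁ ≠ 0 := by
      intro h; rw [h, abs_zero] at h1; linarith
    have n2 : bm a b.coeff m₂ ≠ 0 := by
      intro h; rw [h, abs_zero] at h2; linarith
    obtain ⟨ε₁, he1⟩ := exi_sg _ n1
    obtain ⟨ε₂, he2⟩ := exi_sg _ n2
    refine ⟨ε₁, ε₂, m₁, m₂, ld_ne _ _ _ _ hm, ?_, ?_⟩
    · rw [am_ld, he1]; linarith
    · rw [am_ld, he2]; linarith
  · right
    have n1 : bm a b.coeff m ≠ 0 := by
      intro h; rw [h, abs_zero] at h1; linarith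
    obtain ⟨ε, he⟩ := exi_sg _ n1
    refine ⟨ε, m, ?_, ?_⟩
    · rw [am_ld, he]; linarith
    · intro hc
      rw [cf_ld] at hc
      rw [am_ld, he]
      have h3 : 2 ≤ |b.coeff (-m)| := by
        rcases Int.units_eq_one_or ε with h | h
        · rw [h] at hc
          simp only [Units.val_one, one_mul] at hc
          exact le_abs.mpr (Or.inr (by omega))
        · rw [h] at hc
          simp only [Units.val_neg, Units.val_one, neg_mul, one_mul] at hc
          exact le_abs.mpr (Or.inl (by omega))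
      have := h2 h3
      linarith

end Pool.Agent.B5.H17
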